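import Pool.Agent.H10.Jam3

set_option autoImplicit false

namespace Pool.Agent.Results.MP_389516_gt.Jammed
open Pool.Agent.H10.BW

/-- For every `k ≥ 1` the kissing configuration of the Barnes-Wall lattice of rank `2^k` is jammed. -/
theorem result (k : ℕ) (_hk : 1 ≤ k) :
    Rigid (kiss (k - 1)) (Real.cos (minAngle (kiss (k - 1)))) :=
  main (k - 1)

end Pool.Agent.Results.MP_389516_gt.Jammed
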